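import Pool.Agent.Helper64.RF.GoalsF

/-!
MP_c98eff_gt, project RF of helper64, packet F-CAY: Cayley coordinates.
-/

set_option autoImplicit false

open Quaternion

namespace Pool.Agent.Helper64.RF.H31

theorem nn_pos (ξ : W) : 0 < nn ξ := by
  have := sq_nonneg' ξ
  unfold nn
  linarith

theorem norm_one_add_iot (ξ : W) : ‖(1 : ℍ[ℝ]) + iot ξ‖ ^ 2 = nn ξ := by
  rw [norm_sq_eq, im_add]
  simp [nn, sq, im]

theorem norm_X (ξ : W) : ‖X ξ‖ = nn ξ := by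
  unfold X
  rw [norm_mul, ← pow_two, norm_one_add_iot]

theorem X_ne (ξ : W) : X ξ ≠ 0 := by
  have h : ‖X ξ‖ ≠ 0 := by
    rw [norm_X]
    exact (nn_pos ξ).ne'
  exact norm_ne_zero_iff.1 h

theorem X_re (ξ : W) : (X ξ).re = 1 - sq ξ := by
  simp [X, sq]
  ring

theorem X_im (ξ : W) : im (X ξ) = (2 : ℝ) • ξ := by
  funext i
  fin_cases i <;> simp [X, im] <;> ring

theorem X_inv (ξ : W) : (X ξ)⁻¹ = (1 / nn ξ ^ 2) • ((1 - iot ξ) * (1 - iot ξ)) := by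
  apply inv_eq_of_mul_eq_one_left
  have h1 : ((1 : ℍ[ℝ]) - iot ξ) * (1 + iot ξ) = ((nn ξ : ℝ) : ℍ[ℝ]) := by
    ext
    · simp
      unfold nn sq
      ring
    · simp
      ring
    · simp
      ring
    · simp
      ring
  have h2 : ((1 : ℍ[ℝ]) - iot ξ) * (1 - iot ξ) * X ξ = ((nn ξ ^ 2 : ℝ) : ℍ[ℝ]) := by
    unfold X
    calc ((1 : ℍ[ℝ]) - iot ξ) * (1 - iot ξ) * ((1 + iot ξ) * (1 + iot ξ))
        = (1 - iot ξ) * ((1 - iot ξ) * (1 + iot ξ)) * (1 + iot ξ) := by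
          simp only [mul_assoc]
      _ = (1 - iot ξ) * ((nn ξ : ℝ) : ℍ[ℝ]) * (1 + iot ξ) := by rw [h1]
      _ = ((nn ξ : ℝ) : ℍ[ℝ]) * ((1 - iot ξ) * (1 + iot ξ)) := by
          rw [← Quaternion.coe_commutes, mul_assoc]
      _ = ((nn ξ ^ 2 : ℝ) : ℍ[ℝ]) := by rw [h1, ← Quaternion.coe_mul, pow_two]
  rw [smul_mul_assoc, h2, Quaternion.smul_coe]
  have h3 := (nn_pos ξ).ne'
  rw [one_div, inv_mul_cancel₀ (pow_ne_zero 2 h3)]
  simp

theorem im_key (ξ a : W) :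
    im ((1 - iot ξ) * (1 - iot ξ) * (iot a * (1 + iot ξ) + (1 + iot ξ) * iot a))
      = (2 : ℝ) • im ((1 - iot ξ) * iot a * (1 + iot ξ)) := by
  funext i
  fin_cases i <;> simp [im] <;> ring

theorem Jc_eq (ξ a : W) :
    Jc ξ a = (2 / nn ξ ^ 2) • im ((1 - iot ξ) * iot a * (1 + iot ξ)) := by
  unfold Jc
  rw [X_inv, smul_mul_assoc, im_smul, im_key, smul_smul]
  congr 1
  ring

theorem sq_smul' (r : ℝ) (v : W) : sq (r • v) = r ^ 2 * sq v := by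
  simp [sq]
  ring

theorem sq_key (ξ a : W) :
    sq (im ((1 - iot ξ) * iot a * (1 + iot ξ))) = nn ξ ^ 2 * sq a := by
  simp only [sq, nn, im, iot]
  simp
  ring

theorem sq_Jc (ξ a : W) : sq (Jc ξ a) = 4 / nn ξ ^ 2 * sq a := by
  rw [Jc_eq, sq_smul', sq_key]
  have h := (nn_pos ξ).ne'
  field_simp
  ring

theorem xi_X (ξ : W) : xi (X ξ) = ξ := by
  unfold xi
  rw [norm_X, X_re, X_im, smul_smul]
  have h : nn ξ + (1 - sq ξ) = 2 := by unfold nn; ring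
  rw [h]
  norm_num

theorem X_hasFDerivAt (ξ : W) : ∃ D : W →L[ℝ] ℍ[ℝ], HasFDerivAt X D ξ ∧
    ∀ a, D a = iot a * (1 + iot ξ) + (1 + iot ξ) * iot a := by
  have h1 : HasFDerivAt (fun ξ : W => (1 : ℍ[ℝ]) + iotL ξ) iotL ξ :=
    (iotL.hasFDerivAt).const_add 1
  have h2 := h1.mul' h1
  refine ⟨_, h2, fun a => ?_⟩
  simp
  abel

theorem s_eq {x : ℍ[ℝ]} (hx : 0 < ‖x‖ + x.re) :
    sq (xi x) = (‖x‖ - x.re) / (‖x‖ + x.re) := by
  have h := norm_sq_eq x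
  unfold xi
  rw [sq_smul', eq_div_iff hx.ne']
  have h2 : sq (im x) = (‖x‖ - x.re) * (‖x‖ + x.re) := by nlinarith
  rw [h2]
  field_simp

theorem nn_xi {x : ℍ[ℝ]} (hx : 0 < ‖x‖ + x.re) : nn (xi x) = 2 * ‖x‖ / (‖x‖ + x.re) := by
  unfold nn
  rw [s_eq hx]
  field_simp
  ring

theorem X_xi {x : ℍ[ℝ]} (hx : 0 < ‖x‖ + x.re) : X (xi x) = (2 / (‖x‖ + x.re)) • x := by
  rw [← re_add_iot_im (X (xi x)), X_re, X_im, s_eq hx]
  have h1 : (1 - (‖x‖ - x.re) / (‖x‖ + x.re)) = 2 / (‖x‖ + x.re) * x.re := by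
    field_simp
    ring
  have h2 : (2 : ℝ) • xi x = (2 / (‖x‖ + x.re)) • im x := by
    unfold xi
    rw [smul_smul]
    congr 1
  have h3 : (2 / (‖x‖ + x.re)) • x = (2 / (‖x‖ + x.re)) • ((x.re : ℍ[ℝ]) + iot (im x)) := by
    rw [re_add_iot_im]
  rw [h1, h2, iot_smul, h3, smul_add, Quaternion.smul_coe]

/-- `re` as a continuous linear map. -/
noncomputable def reL : ℍ[ℝ] →L[ℝ] ℝ :=
  LinearMap.toContinuousLinearMap
    { toFun := fun q => q.re, map_add' := fun _ _ => by simp, map_smul' := fun _ _ => by simp }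

theorem reL_apply (q : ℍ[ℝ]) : reL q = q.re := rfl

theorem x_ne {x : ℍ[ℝ]} (hx : 0 < ‖x‖ + x.re) : x ≠ 0 := by
  rintro rfl
  simp at hx

theorem s_contDiffAt {x : ℍ[ℝ]} (hx : 0 < ‖x‖ + x.re) :
    ContDiffAt ℝ (⊤ : ℕ∞) (fun y : ℍ[ℝ] => ‖y‖ + y.re) x :=
  (contDiffAt_norm ℝ (x_ne hx)).add reL.contDiff.contDiffAt

theorem xi_contDiffAt {x : ℍ[ℝ]} (hx : 0 < ‖x‖ + x.re) : ContDiffAt ℝ (⊤ : ℕ∞) xi x :=
  ((s_contDiffAt hx).inv hx.ne').smul imL.contDiff.contDiffAt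

theorem xi_smul {r : ℝ} (hr : 0 < r) (x : ℍ[ℝ]) : xi (r • x) = xi x := by
  unfold xi
  rw [norm_smul, Real.norm_eq_abs, abs_of_pos hr, Quaternion.re_smul, im_smul, smul_smul,
    smul_eq_mul, ← mul_add, mul_inv, mul_right_comm, inv_mul_cancel₀ hr.ne', one_mul]

theorem xi_euler {x : ℍ[ℝ]} (hx : 0 < ‖x‖ + x.re) : fderiv ℝ xi x x = 0 := by
  have h1 : HasDerivAt (fun t : ℝ => (1 + t) • x) x 0 := by
    have : HasDerivAt (fun t : ℝ => (1 + t)) 1 0 := by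
      simpa using (hasDerivAt_id (0:ℝ)).const_add 1
    simpa using this.smul_const x
  have h2 : HasFDerivAt xi (fderiv ℝ xi x) ((1 + (0:ℝ)) • x) := by
    simpa using ((xi_contDiffAt hx).differentiableAt (by simp)).hasFDerivAt
  have h3 : HasDerivAt (xi ∘ fun t : ℝ => (1 + t) • x) (fderiv ℝ xi x x) 0 :=
    h2.comp_hasDerivAt 0 h1
  have h4 : (fun t : ℝ => xi ((1 + t) • x)) =ᶠ[nhds 0] fun _ => xi x := by
    have : ∀ᶠ t : ℝ in nhds 0, 0 < 1 + t := by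
      have := (isOpen_lt (continuous_const (y := (0:ℝ))) (continuous_const.add continuous_id)
        : IsOpen {t : ℝ | 0 < 1 + t}).mem_nhds (x := (0:ℝ)) (by simp)
      exact this
    filter_upwards [this] with t ht
    exact xi_smul ht x
  have h5 : HasDerivAt (fun t : ℝ => xi ((1 + t) • x)) 0 0 :=
    (hasDerivAt_const (0:ℝ) (xi x)).congr_of_eventuallyEq h4
  exact h3.unique h5

theorem Jc_xi {x : ℍ[ℝ]} (hx : 0 < ‖x‖ + x.re) (v : W) :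
    Jc (xi x) (fderiv ℝ xi x (x * iot v)) = v := by
  obtain ⟨D, hD, hDa⟩ := X_hasFDerivAt (xi x)
  have hxi : HasFDerivAt xi (fderiv ℝ xi x) x :=
    ((xi_contDiffAt hx).differentiableAt (by simp)).hasFDerivAt
  have h1 : HasFDerivAt (fun y => X (xi y)) (D.comp (fderiv ℝ xi x)) x := hD.comp x hxi
  have hs := s_contDiffAt hx
  have hne : (fun y : ℍ[ℝ] => ‖y‖ + y.re) x ≠ 0 := hx.ne'
  have hφc : ContDiffAt ℝ (⊤ : ℕ∞) (fun y : ℍ[ℝ] => 2 / (‖y‖ + y.re)) x :=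
    contDiffAt_const.div hs hne
  have hφ : DifferentiableAt ℝ (fun y : ℍ[ℝ] => 2 / (‖y‖ + y.re)) x :=
    hφc.differentiableAt (by simp)
  have h2 := hφ.hasFDerivAt.smul (hasFDerivAt_id x)
  have h3 : (fun y => X (xi y)) =ᶠ[nhds x] fun y => (2 / (‖y‖ + y.re)) • id y := by
    have h4 : ∀ᶠ y in nhds x, 0 < ‖y‖ + y.re :=
      hs.continuousAt.eventually (lt_mem_nhds hx)
    filter_upwards [h4] with y hy
    exact X_xi hy
  have h5 := (h2.congr_of_eventuallyEq h3).unique h1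
  have h6 := congrArg (fun L : ℍ[ℝ] →L[ℝ] ℍ[ℝ] => L (x * iot v)) h5
  simp only [ContinuousLinearMap.comp_apply, ContinuousLinearMap.add_apply,
    ContinuousLinearMap.smul_apply, ContinuousLinearMap.smulRight_apply, hDa, id_eq,
    ContinuousLinearMap.id_apply] at h6
  unfold Jc
  rw [← h6, X_xi hx]
  obtain ⟨c, hc⟩ : ∃ c : ℝ, c = (fderiv ℝ (fun y : ℍ[ℝ] => 2 / (‖y‖ + y.re)) x) (x * iot v) :=
    ⟨_, rfl⟩
  rw [← hc]
  obtain ⟨φ, hφ'⟩ : ∃ φ : ℝ, φ = 2 / (‖x‖ + x.re) := ⟨_, rfl⟩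
  have hφ0 : φ ≠ 0 := by
    rw [hφ']
    exact (div_pos two_pos hx).ne'
  rw [← hφ']
  have h7 : φ • (x * iot v) + c • x = (φ • x) * (iot v + ((c / φ : ℝ) : ℍ[ℝ])) := by
    rw [mul_add, smul_mul_assoc, smul_mul_assoc, ← Quaternion.coe_commutes,
      Quaternion.coe_mul_eq_smul, smul_smul, mul_div_cancel₀ _ hφ0]
  rw [h7, inv_mul_cancel_left₀ (smul_ne_zero hφ0 (x_ne hx)), im_add, im_iot, im_coe, add_zero]

theorem cay : CAY := by
  refine ⟨X_ne, X_hasFDerivAt, Jc_eq, sq_Jc, fun ξ => ⟨norm_X ξ, X_re ξ, xi_X ξ⟩,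
    fun x hx => ⟨X_xi hx, nn_xi hx⟩, fun x hx => ⟨xi_contDiffAt hx, xi_euler hx, Jc_xi hx⟩⟩

end Pool.Agent.Helper64.RF.H31

namespace Pool.Agent.Helper31.RF

/-- Packet F-CAY. -/
theorem cay : Pool.Agent.Helper64.RF.CAY := Pool.Agent.Helper64.RF.H31.cay

end Pool.Agent.Helper31.RF
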