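import Pool.Agent.Helper73.RF.GoalsB

/-!
MP_c98eff_gt, project RF of helper73, packet P3C: the gradient estimate at one time.
-/

set_option autoImplicit false

open Finset

namespace Pool.Agent.Helper31.RF

open Pool.Agent.Helper73.RF

theorem p3c_real {t Q σ s p q Y0 : ℝ} (ht : 0 < t) (hσ : 0 < σ) (hσ1 : σ ≤ 1) (hs : 0 < s)
    (hsQ : s ≤ Q) (hY1 : 1 ≤ Y0) (hY : Y0 ≤ t * Q) (hq0 : 0 ≤ q)
    (hq : q ≤ t ^ (-σ) * s ^ (2 - σ))
    (h3 : p / (s + 1 / t) + 240 * q ≤ 480 * t ^ (-2 : ℝ) * (Y0 + t * s) ^ (2 - σ)) :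
    p ≤ 3840 * (t * Q) ^ (-σ) * Q ^ 3 ∧ q ≤ (t * Q) ^ (-σ) * Q ^ 2 := by
  have hQ : 0 < Q := lt_of_lt_of_le hs hsQ
  have htQ : 0 < t * Q := mul_pos ht hQ
  constructor
  · have h1 : 0 < s + 1 / t := by positivity
    have h2 : p / (s + 1 / t) ≤ 480 * t ^ (-2 : ℝ) * (Y0 + t * s) ^ (2 - σ) := by linarith
    rw [div_le_iff₀ h1] at h2
    have h4 : 1 / t ≤ Q := by
      rw [div_le_iff₀ ht]
      linarith [mul_comm t Q]
    have h5 : s + 1 / t ≤ 2 * Q := by linarith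
    have h6 : Y0 + t * s ≤ 2 * (t * Q) := by
      have := mul_le_mul_of_nonneg_left hsQ ht.le
      linarith
    have h7 : (Y0 + t * s) ^ (2 - σ) ≤ (2 * (t * Q)) ^ (2 - σ) :=
      Real.rpow_le_rpow (by positivity) h6 (by linarith)
    have h8 : (2 * (t * Q)) ^ (2 - σ) = (2 : ℝ) ^ (2 - σ) * (t * Q) ^ (2 - σ) :=
      Real.mul_rpow (by norm_num) htQ.le
    have h9 : (2 : ℝ) ^ (2 - σ) ≤ 4 := by
      calc (2 : ℝ) ^ (2 - σ) ≤ (2 : ℝ) ^ (2 : ℝ) :=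
            Real.rpow_le_rpow_of_exponent_le (by norm_num) (by linarith)
        _ = 4 := by norm_num
    have h10 : 0 ≤ (t * Q) ^ (2 - σ) := Real.rpow_nonneg htQ.le _
    have h11 : (Y0 + t * s) ^ (2 - σ) ≤ 4 * (t * Q) ^ (2 - σ) := by
      rw [h8] at h7
      exact h7.trans (mul_le_mul_of_nonneg_right h9 h10)
    have h12 : (t * Q) ^ (2 - σ) = (t * Q) ^ 2 * (t * Q) ^ (-σ) := by
      rw [sub_eq_add_neg, Real.rpow_add htQ]
      norm_num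
    have h13 : t ^ (-2 : ℝ) = (t ^ 2)⁻¹ := by
      rw [Real.rpow_neg ht.le]
      norm_num
    have h14 : 0 ≤ (t * Q) ^ (-σ) := Real.rpow_nonneg htQ.le _
    have h15 : 0 ≤ t ^ (-2 : ℝ) := Real.rpow_nonneg ht.le _
    calc p ≤ 480 * t ^ (-2 : ℝ) * (Y0 + t * s) ^ (2 - σ) * (s + 1 / t) := h2
      _ ≤ 480 * t ^ (-2 : ℝ) * (4 * (t * Q) ^ (2 - σ)) * (2 * Q) := by
          apply mul_le_mul _ h5 h1.le (by positivity)
          exact mul_le_mul_of_nonneg_left h11 (by positivity)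
      _ = 3840 * (t * Q) ^ (-σ) * Q ^ 3 := by
          rw [h12, h13]
          field_simp
          ring
  · have h1 : s ^ (2 - σ) ≤ Q ^ (2 - σ) := Real.rpow_le_rpow hs.le hsQ (by linarith)
    have h2 : 0 ≤ t ^ (-σ) := Real.rpow_nonneg ht.le _
    calc q ≤ t ^ (-σ) * s ^ (2 - σ) := hq
      _ ≤ t ^ (-σ) * Q ^ (2 - σ) := mul_le_mul_of_nonneg_left h1 h2
      _ = (t * Q) ^ (-σ) * Q ^ 2 := by
          rw [Real.mul_rpow ht.le hQ.le, sub_eq_add_neg, Real.rpow_add hQ]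
          norm_num
          ring

/-- Packet P3C. -/
theorem p3c (h3 : P3Stmt) (hb : BiaStmt) : P3cStmt := by
  intro T F hF hRF κ s0 σ hκ hs0 hσ hσ1 hM hg hs hP hq t Q hQ hY z
  refine p3c_real t.2.1 hσ hσ1 (lt_of_lt_of_le hs0 (hs z t)) (hQ z) ?_ hY ?_ (hq z t)
    (h3 T F hF hRF κ s0 σ hκ hs0 hσ hσ1 hM hg hs hP hq z t)
  · exact Real.one_le_rpow (by norm_num) (by positivity)
  · exact (hb T F hF hRF z t).2.2.2.2.2.1

end Pool.Agent.Helper31.RF
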